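import Pool.Agent.H79.BN.Targets3
import Pool.Agent.H93.BL.Basic

/-!
# Non-separation: the half plane condition absorbs a half plane of directions (row S1)
-/

namespace Pool.Agent.H90.BN

open MeasureTheory Set Filter Topology Pool.Agent.H93.BL Pool.Agent.H79.BN

theorem s1 (h1 : T_V1) (hf0 : T_F0) (hmp : T_MP) (hs0 : T_S0) : T_S1 := by
  intro n _ w E u hn hw hE y d hd
  have hd0 : d ≠ 0 := by
    rintro rfl
    rw [ip_zero_left] at hd
    exact lt_irrefl _ hd
  have hnd : 0 < ‖d‖ := norm_pos_iff.mpr hd0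
  have hc : 0 < ‖d‖⁻¹ := inv_pos.mpr hnd
  refine hf0 n w E y d ‖d‖⁻¹ hc ?_
  set d1 : ℂ := ((‖d‖⁻¹ : ℝ) : ℂ) * d with hd1
  have hn1 : ‖d1‖ = 1 := by
    rw [hd1, norm_mul, Complex.norm_real, Real.norm_of_nonneg hc.le]
    exact inv_mul_cancel₀ hnd.ne'
  have hσ : 0 < ip d1 u := by
    rw [hd1, ip_smul_left]
    exact mul_pos hc hd
  refine hmp n w E hn hw {p : ℂ × ℂ | ‖p.2‖ = 1 ∧ ip d1 u ≤ ip p.2 u} (fun p => ip p.1 u) ?_ ?_ ?_ ?_
    y d1 ⟨hn1, le_refl _⟩
  · exact (isClosed_eq (continuous_norm.comp continuous_snd) continuous_const).inter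
      (isClosed_le continuous_const ((continuous_ip_left u).comp continuous_snd))
  · exact (continuous_ip_left u).comp continuous_fst
  · intro p hp
    exact hp.1
  · intro y' d' s t hK hs ht _ hcr
    obtain ⟨hK1, hK2⟩ := hK
    have he : ed w s ≠ 0 := (h1 n w hn hw).1 s
    obtain ⟨ha, hb, -⟩ := hs0 (ed w s) d' u he
    have hpos : 0 < ip d' u := lt_of_lt_of_le hσ hK2
    have hmul : cr (ed w s) d' * cr (ed w s) u ≤ 0 :=
      mul_nonpos_of_nonpos_of_nonneg hcr (hE s hs)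
    have hfrac : 2 * (cr (ed w s) d' * cr (ed w s) u) / ‖ed w s‖ ^ 2 ≤ 0 :=
      div_nonpos_of_nonpos_of_nonneg (by linarith) (by positivity)
    refine ⟨⟨?_, ?_⟩, ?_, ?_⟩
    · show ‖rfn (ed w s) d'‖ = 1
      rw [ha]
      exact hK1
    · show ip d1 u ≤ ip (rfn (ed w s) d') u
      rw [hb]
      have : ip d1 u ≤ ip d' u := hK2
      linarith
    · show ip y' u ≤ ip (y' + (t : ℂ) * d') u
      rw [ip_add_left, ip_smul_left]
      have := mul_nonneg ht hpos.le
      linarith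
    · intro ht'
      show ip y' u < ip (y' + (t : ℂ) * d') u
      rw [ip_add_left, ip_smul_left]
      have := mul_pos ht' hpos
      linarith

end Pool.Agent.H90.BN
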